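import Pool.Agent.Lib_MP_71c74a_pr.AssembleSharp

/-!
# The order of magnitude of `1 - ξ Q(ξ)` for small `ξ`

For the exponential metric of the white noise field of the problem, in every dimension `d ≥ 2`
and for every kernel, `1 - ξ Q(ξ)` is of order exactly `ξ^{4/3}` as `ξ → 0`.
-/

open MeasureTheory Set Filter Asymptotics
open scoped Topology

namespace Pool.Agent.Results.MP_71c74a_pr.Sharp

open Pool.Agent.Lib_MP_71c74a_pr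

/-- The first standard basis vector. -/
noncomputable def e1 (d : ℕ) (hd : 2 ≤ d) : EuclideanSpace ℝ (Fin d) :=
  EuclideanSpace.single (⟨0, by omega⟩ : Fin d) 1

/-- `Q` is the exponent at `ξ` of the medians `lam n`: `lam n = 2^{-(1 - ξ Q) n + o(n)}`. -/
def IsExponent (ξ : ℝ) (lam : ℕ → ℝ) (Q : ℝ) : Prop :=
  ∃ ε : ℕ → ℝ, ε =o[atTop] (fun n : ℕ => (n : ℝ)) ∧
    ∀ᶠ n : ℕ in atTop, lam n = (2 : ℝ) ^ (-(1 - ξ * Q) * n + ε n)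

lemma IsExponent.le_of_lower {ξ Q r b : ℝ} {lam : ℕ → ℝ} (h : IsExponent ξ lam Q)
    (hlow : ∀ᶠ n : ℕ in atTop, (2 : ℝ) ^ (-r * n - b) ≤ lam n) : 1 - ξ * Q ≤ r := by
  obtain ⟨ε, hε, hlam⟩ := h
  have h1 : Tendsto (fun n : ℕ => (1 - ξ * Q) - ε n / n) atTop (𝓝 ((1 - ξ * Q) - 0)) :=
    tendsto_const_nhds.sub hε.tendsto_div_nhds_zero
  have h2 : Tendsto (fun n : ℕ => r + b / n) atTop (𝓝 (r + 0)) :=
    tendsto_const_nhds.add (tendsto_const_nhds.div_atTop tendsto_natCast_atTop_atTop)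
  rw [sub_zero] at h1
  rw [add_zero] at h2
  refine le_of_tendsto_of_tendsto h1 h2 ?_
  filter_upwards [hlow, hlam, eventually_gt_atTop 0] with n h3 h4 hn
  have hn' : (0 : ℝ) < n := by exact_mod_cast hn
  rw [h4] at h3
  have h5 := (Real.rpow_le_rpow_left_iff (by norm_num : (1 : ℝ) < 2)).1 h3
  have h6 : ε n / n * n = ε n := by field_simp
  have h7 : b / n * n = b := by field_simp
  have h8 : ((1 - ξ * Q) - ε n / n) * n ≤ (r + b / n) * n := by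
    rw [sub_mul, add_mul, h6, h7]
    linarith
  exact le_of_mul_le_mul_right h8 hn'

lemma IsExponent.ge_of_upper {ξ Q r b : ℝ} {lam : ℕ → ℝ} (h : IsExponent ξ lam Q)
    (hup : ∀ᶠ n : ℕ in atTop, lam n ≤ (2 : ℝ) ^ (-r * n + b)) : r ≤ 1 - ξ * Q := by
  obtain ⟨ε, hε, hlam⟩ := h
  have h1 : Tendsto (fun n : ℕ => (1 - ξ * Q) - ε n / n) atTop (𝓝 ((1 - ξ * Q) - 0)) :=
    tendsto_const_nhds.sub hε.tendsto_div_nhds_zero
  have h2 : Tendsto (fun n : ℕ => r - b / n) atTop (𝓝 (r - 0)) :=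
    tendsto_const_nhds.sub (tendsto_const_nhds.div_atTop tendsto_natCast_atTop_atTop)
  rw [sub_zero] at h1 h2
  refine le_of_tendsto_of_tendsto h2 h1 ?_
  filter_upwards [hup, hlam, eventually_gt_atTop 0] with n h3 h4 hn
  have hn' : (0 : ℝ) < n := by exact_mod_cast hn
  rw [h4] at h3
  have h5 := (Real.rpow_le_rpow_left_iff (by norm_num : (1 : ℝ) < 2)).1 h3
  have h6 : ε n / n * n = ε n := by field_simp
  have h7 : b / n * n = b := by field_simp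
  have h8 : (r - b / n) * n ≤ ((1 - ξ * Q) - ε n / n) * n := by
    rw [sub_mul, sub_mul, h6, h7]
    linarith
  exact le_of_mul_le_mul_right h8 hn'

/-- Two-sided bounds determine the exponent. -/
lemma tendsto_exponent {f : ℝ → ℝ} {c C ξ₀ : ℝ} (hc : 0 < c) (hC : 0 < C) (hξ₀ : 0 < ξ₀)
    (hf : ∀ ξ, 0 < ξ → ξ ≤ ξ₀ → c * ξ ^ (4 / 3 : ℝ) ≤ f ξ ∧ f ξ ≤ C * ξ ^ (4 / 3 : ℝ)) :
    Tendsto (fun ξ => Real.log (f ξ) / Real.log ξ) (𝓝[>] 0) (𝓝 (4 / 3)) := by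
  have hL : Tendsto (fun ξ : ℝ => Real.log (1 / ξ)) (𝓝[>] 0) atTop := by
    have h1 : Tendsto (fun ξ : ℝ => 1 / ξ) (𝓝[>] 0) atTop := by
      simpa only [one_div] using tendsto_inv_nhdsGT_zero
    exact Real.tendsto_log_atTop.comp h1
  have hinv : ∀ a : ℝ, Tendsto (fun y : ℝ => a / y) atTop (𝓝 0) := fun a =>
    tendsto_const_nhds.div_atTop tendsto_id
  have hu : Tendsto (fun ξ : ℝ => 4 / 3 + -Real.log c / Real.log (1 / ξ)) (𝓝[>] 0)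
      (𝓝 (4 / 3)) := by
    have h1 : Tendsto (fun y : ℝ => 4 / 3 + -Real.log c / y) atTop (𝓝 (4 / 3 + 0)) :=
      tendsto_const_nhds.add (hinv _)
    rw [add_zero] at h1
    exact h1.comp hL
  have hv : Tendsto (fun ξ : ℝ => 4 / 3 + -Real.log C / Real.log (1 / ξ)) (𝓝[>] 0)
      (𝓝 (4 / 3)) := by
    have h1 : Tendsto (fun y : ℝ => 4 / 3 + -Real.log C / y) atTop (𝓝 (4 / 3 + 0)) :=
      tendsto_const_nhds.add (hinv _)
    rw [add_zero] at h1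
    exact h1.comp hL
  have hev : ∀ᶠ ξ : ℝ in 𝓝[>] 0, 0 < ξ ∧ ξ ≤ ξ₀ ∧ 0 < Real.log (1 / ξ) := by
    have h1 : ∀ᶠ ξ : ℝ in 𝓝[>] 0, ξ ∈ Ioc 0 ξ₀ := Ioc_mem_nhdsGT hξ₀
    filter_upwards [h1, hL.eventually_gt_atTop 0] with ξ h2 h3
    exact ⟨h2.1, h2.2, h3⟩
  refine tendsto_of_tendsto_of_tendsto_of_le_of_le' hv hu ?_ ?_
  · filter_upwards [hev] with ξ ⟨h1, h2, h3⟩
    obtain ⟨h4, h5⟩ := hf ξ h1 h2
    set L := Real.log (1 / ξ) with hLdef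
    have hlogξ : Real.log ξ = -L := by rw [hLdef, one_div, Real.log_inv, neg_neg]
    have hz : 0 < ξ ^ (4 / 3 : ℝ) := Real.rpow_pos_of_pos h1 _
    have hf0 : 0 < f ξ := lt_of_lt_of_le (by positivity) h4
    have h6 : Real.log (f ξ) ≤ Real.log C - 4 / 3 * L := by
      calc Real.log (f ξ) ≤ Real.log (C * ξ ^ (4 / 3 : ℝ)) := Real.log_le_log hf0 h5
        _ = Real.log C + 4 / 3 * Real.log ξ := by
            rw [Real.log_mul hC.ne' hz.ne', Real.log_rpow h1]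
        _ = _ := by rw [hlogξ]; ring
    rw [hlogξ, div_neg, ← neg_div, le_div_iff₀ h3]
    have h7 : (4 / 3 + -Real.log C / L) * L = 4 / 3 * L - Real.log C := by
      field_simp
      ring
    rw [h7]
    linarith
  · filter_upwards [hev] with ξ ⟨h1, h2, h3⟩
    obtain ⟨h4, h5⟩ := hf ξ h1 h2
    set L := Real.log (1 / ξ) with hLdef
    have hlogξ : Real.log ξ = -L := by rw [hLdef, one_div, Real.log_inv, neg_neg]
    have hz : 0 < ξ ^ (4 / 3 : ℝ) := Real.rpow_pos_of_pos h1 _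
    have h6 : Real.log c - 4 / 3 * L ≤ Real.log (f ξ) := by
      calc Real.log c - 4 / 3 * L = Real.log c + 4 / 3 * Real.log ξ := by rw [hlogξ]; ring
        _ = Real.log (c * ξ ^ (4 / 3 : ℝ)) := by
            rw [Real.log_mul hc.ne' hz.ne', Real.log_rpow h1]
        _ ≤ Real.log (f ξ) := Real.log_le_log (by positivity) h4
    rw [hlogξ, div_neg, ← neg_div, div_le_iff₀ h3]
    have h7 : (4 / 3 + -Real.log c / L) * L = 4 / 3 * L - Real.log c := by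
      field_simp
      ring
    rw [h7]
    linarith

/-- Two-sided bounds give the order of magnitude. -/
lemma isTheta_of_bounds {f : ℝ → ℝ} {c C ξ₀ : ℝ} (hc : 0 < c) (hξ₀ : 0 < ξ₀)
    (hf : ∀ ξ, 0 < ξ → ξ ≤ ξ₀ → c * ξ ^ (4 / 3 : ℝ) ≤ f ξ ∧ f ξ ≤ C * ξ ^ (4 / 3 : ℝ)) :
    f =Θ[𝓝[>] 0] (fun ξ : ℝ => ξ ^ (4 / 3 : ℝ)) := by
  have hev : ∀ᶠ ξ : ℝ in 𝓝[>] 0, ξ ∈ Ioc 0 ξ₀ := Ioc_mem_nhdsGT hξ₀
  constructor
  · refine IsBigO.of_bound C ?_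
    filter_upwards [hev] with ξ h
    obtain ⟨h4, h5⟩ := hf ξ h.1 h.2
    have hz : 0 < ξ ^ (4 / 3 : ℝ) := Real.rpow_pos_of_pos h.1 _
    have hf0 : 0 < f ξ := lt_of_lt_of_le (by positivity) h4
    rw [Real.norm_of_nonneg hf0.le, Real.norm_of_nonneg hz.le]
    exact h5
  · refine IsBigO.of_bound c⁻¹ ?_
    filter_upwards [hev] with ξ h
    obtain ⟨h4, h5⟩ := hf ξ h.1 h.2
    have hz : 0 < ξ ^ (4 / 3 : ℝ) := Real.rpow_pos_of_pos h.1 _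
    have hf0 : 0 < f ξ := lt_of_lt_of_le (by positivity) h4
    rw [Real.norm_of_nonneg hf0.le, Real.norm_of_nonneg hz.le, ← div_eq_inv_mul,
      le_div_iff₀ hc, mul_comm]
    exact h4

/-- **The order of magnitude is `ξ^{4/3}`.** Let `lam ξ n` be a median of `D_n(0, e₁; B_2(0))` at
the parameter `ξ`. There are constants such that for small `ξ` the medians decay exponentially in
`n` at a rate between `c ξ^{4/3}` and `C ξ^{4/3}`; these are bounds for `1 - ξ Q(ξ)`, so that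
`1 - ξ Q(ξ)` is of order exactly `ξ^{4/3}` as `ξ` decreases to `0`. -/
theorem result {d : ℕ} (hd : 2 ≤ d) {Ω : Type*} [MeasurableSpace Ω] {P : Measure Ω}
    {K : EuclideanSpace ℝ (Fin d) → ℝ} {W : (EuclideanSpace ℝ (Fin d) × ℝ → ℝ) → Ω → ℝ}
    {h : ℕ → EuclideanSpace ℝ (Fin d) → Ω → ℝ} (hK : IsKernel K) (hW : IsWhiteNoise P W)
    (hh : IsField P K W h) (lam : ℝ → ℕ → ℝ)
    (hlam : ∀ ξ > 0, ∀ n ≥ 1, IsMedian P
      (fun ω => expDist ξ (fun x => h n x ω) (cube d 2) 0 (e1 d hd)) (lam ξ n)) :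
    (∃ c C ξ₀ : ℝ, 0 < c ∧ 0 < C ∧ 0 < ξ₀ ∧ ξ₀ < 1 ∧ ∀ ξ, 0 < ξ → ξ ≤ ξ₀ →
      (∃ b : ℝ, ∀ᶠ n : ℕ in atTop,
        (2 : ℝ) ^ (-(C * ξ ^ (4 / 3 : ℝ)) * n - b) ≤ lam ξ n ∧
        lam ξ n ≤ (2 : ℝ) ^ (-(c * ξ ^ (4 / 3 : ℝ)) * n + b)) ∧
      ∀ Q : ℝ, IsExponent ξ (lam ξ) Q →
        c * ξ ^ (4 / 3 : ℝ) ≤ 1 - ξ * Q ∧ 1 - ξ * Q ≤ C * ξ ^ (4 / 3 : ℝ)) ∧
    ∀ Q : ℝ → ℝ, (∀ ξ > 0, IsExponent ξ (lam ξ) (Q ξ)) →
      (fun ξ => 1 - ξ * Q ξ) =Θ[𝓝[>] 0] (fun ξ : ℝ => ξ ^ (4 / 3 : ℝ)) ∧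
      Tendsto (fun ξ => Real.log (1 - ξ * Q ξ) / Real.log ξ) (𝓝[>] 0) (𝓝 (4 / 3)) := by
  obtain ⟨c, C, ξ₀, hc, hC, hξ₀, hξ₀1, hmain⟩ := median_bounds_sharp hd hK hW hh
  have hlog2 : 0 < Real.log 2 := Real.log_pos (by norm_num)
  have hnorm : ‖e1 d hd‖ = 1 := by
    unfold e1
    simp
  have hexp : ∀ y : ℝ, Real.exp y = (2 : ℝ) ^ (y / Real.log 2) := fun y => by
    rw [Real.rpow_def_of_pos (by norm_num)]
    congr 1
    field_simp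
  have key : ∀ ξ, 0 < ξ → ξ ≤ ξ₀ → ∃ b : ℝ, ∀ᶠ n : ℕ in atTop,
        (2 : ℝ) ^ (-(C / Real.log 2 * ξ ^ (4 / 3 : ℝ)) * n - b) ≤ lam ξ n ∧
        lam ξ n ≤ (2 : ℝ) ^ (-(c / Real.log 2 * ξ ^ (4 / 3 : ℝ)) * n + b) := by
    intro ξ h1 h2
    obtain ⟨b, hb⟩ := hmain ξ h1 h2
    refine ⟨b / Real.log 2, ?_⟩
    filter_upwards [hb, eventually_ge_atTop 1] with n h3 hn
    obtain ⟨h4, h5⟩ := h3 (e1 d hd) hnorm (lam ξ n) (hlam ξ h1 n hn)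
    rw [hexp] at h4 h5
    constructor
    · refine le_trans (le_of_eq ?_) h4
      congr 1
      ring
    · refine h5.trans (le_of_eq ?_)
      congr 1
      ring
  have key2 : ∀ ξ, 0 < ξ → ξ ≤ ξ₀ → ∀ Q : ℝ, IsExponent ξ (lam ξ) Q →
        c / Real.log 2 * ξ ^ (4 / 3 : ℝ) ≤ 1 - ξ * Q ∧
        1 - ξ * Q ≤ C / Real.log 2 * ξ ^ (4 / 3 : ℝ) := by
    intro ξ h1 h2 Q hQ
    obtain ⟨b, hb⟩ := key ξ h1 h2
    exact ⟨hQ.ge_of_upper (hb.mono fun n h => h.2), hQ.le_of_lower (hb.mono fun n h => h.1)⟩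
  refine ⟨⟨c / Real.log 2, C / Real.log 2, ξ₀, by positivity, by positivity, hξ₀, by linarith,
    fun ξ h1 h2 => ⟨key ξ h1 h2, key2 ξ h1 h2⟩⟩, fun Q hQ => ⟨?_, ?_⟩⟩
  · exact isTheta_of_bounds (c := c / Real.log 2) (C := C / Real.log 2) (by positivity)
      hξ₀ (fun ξ h1 h2 => key2 ξ h1 h2 (Q ξ) (hQ ξ h1))
  · exact tendsto_exponent (c := c / Real.log 2) (C := C / Real.log 2) (by positivity)
      (by positivity) hξ₀ (fun ξ h1 h2 => key2 ξ h1 h2 (Q ξ) (hQ ξ h1))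

end Pool.Agent.Results.MP_71c74a_pr.Sharp
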